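import Pool.Agent.N602.PCDefs

open scoped BigOperators
open Filter Asymptotics

namespace Pool.Agent.N602.PC

variable {n : ℕ}

/-- weight of a set -/
noncomputable def wt (n : ℕ) (p : ℝ) (S : Finset (Fin n)) : ℝ :=
  p ^ S.card * (1 - p) ^ (n - S.card)

theorem wt_nonneg {p : ℝ} (h0 : 0 ≤ p) (h1 : p ≤ 1) (S : Finset (Fin n)) : 0 ≤ wt n p S := by
  unfold wt
  have : 0 ≤ 1 - p := by linarith
  positivity

/-- product formula -/
theorem sum_wt_prod (p : ℝ) (h : Fin n → ℝ) :
    ∑ S : Finset (Fin n), wt n p S * ∏ v ∈ Finset.univ \ S, h v = ∏ v : Fin n, (p + (1 - p) * h v) := by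
  rw [Finset.prod_add, Finset.powerset_univ]
  refine Finset.sum_congr rfl fun S _ => ?_
  rw [Finset.prod_mul_distrib, Finset.prod_const, Finset.prod_const, wt,
    Finset.card_sdiff_of_subset (Finset.subset_univ S), Finset.card_univ, Fintype.card_fin]
  ring

theorem sum_wt_pow (p q : ℝ) (U : Finset (Fin n)) :
    ∑ S : Finset (Fin n), wt n p S * q ^ (U \ S).card = (p + (1 - p) * q) ^ U.card := by
  have := sum_wt_prod p (fun v => if v ∈ U then q else 1)
  rw [← Finset.prod_sdiff (Finset.subset_univ U)] at this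
  rw [Finset.prod_congr rfl (g := fun _ => (1:ℝ)) (s₁ := Finset.univ \ U), Finset.prod_const_one,
    one_mul, Finset.prod_congr rfl (g := fun _ => p + (1 - p) * q) (s₁ := U), Finset.prod_const]
    at this
  · rw [← this]
    refine Finset.sum_congr rfl fun S _ => ?_
    congr 1
    rw [Finset.prod_ite, Finset.prod_const, Finset.prod_const_one, mul_one]
    congr 2
    ext v
    simp [and_comm]
  · intro v hv
    simp [hv]
  · intro v hv
    have : v ∉ U := by simpa using hv
    simp [this]

theorem zero_pow_card_sdiff (U S : Finset (Fin n)) :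
    (0:ℝ) ^ (U \ S).card = if U ⊆ S then 1 else 0 := by
  split_ifs with h
  · rw [Finset.sdiff_eq_empty_iff_subset.mpr h]; simp
  · apply zero_pow
    intro h'
    exact h (Finset.sdiff_eq_empty_iff_subset.mp (Finset.card_eq_zero.mp h'))

theorem sum_wt_subset (p : ℝ) (U : Finset (Fin n)) :
    ∑ S : Finset (Fin n), wt n p S * (if U ⊆ S then (1:ℝ) else 0) = p ^ U.card := by
  have := sum_wt_pow p 0 U
  simpa [zero_pow_card_sdiff] using this

theorem sum_wt (p : ℝ) : ∑ S : Finset (Fin n), wt n p S = 1 := by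
  simpa using sum_wt_subset p (∅ : Finset (Fin n))

/-- the mass on not containing `U`, damped by `q` -/
theorem sum_wt_noise (p q : ℝ) (U : Finset (Fin n)) :
    ∑ S : Finset (Fin n), wt n p S * ((if U ⊆ S then (0:ℝ) else 1) * q ^ (U \ S).card) =
      (p + (1 - p) * q) ^ U.card - p ^ U.card := by
  rw [← sum_wt_pow, ← sum_wt_subset, ← Finset.sum_sub_distrib]
  refine Finset.sum_congr rfl fun S _ => ?_
  split_ifs with h
  · rw [Finset.sdiff_eq_empty_iff_subset.mpr h]; simp
  · ring

/-! ### edges -/

/-- edges inside `U` -/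
def inside (U : Finset (Fin n)) : Finset (Edge n) :=
  Finset.univ.filter fun e => e.1.1 ∈ U ∧ e.1.2 ∈ U

theorem mem_inside {U : Finset (Fin n)} {e : Edge n} : e ∈ inside U ↔ e.1.1 ∈ U ∧ e.1.2 ∈ U := by
  simp [inside]

/-- clique indicator -/
noncomputable def K (U : Finset (Fin n)) (Y : Input n) : ℝ :=
  ∏ e ∈ inside U, (if Y e = true then (1:ℝ) else 0)

theorem K_nonneg (U : Finset (Fin n)) (Y : Input n) : 0 ≤ K U Y := by
  unfold K
  exact Finset.prod_nonneg fun e _ => by split_ifs <;> norm_num

theorem K_le_one (U : Finset (Fin n)) (Y : Input n) : K U Y ≤ 1 := by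
  unfold K
  exact Finset.prod_le_one (fun e _ => by split_ifs <;> norm_num)
    (fun e _ => by split_ifs <;> norm_num)

/-- clique polynomial -/
noncomputable def Kpoly (U : Finset (Fin n)) : MvPolynomial (Edge n) ℝ :=
  ∏ e ∈ inside U, MvPolynomial.X e

theorem ev_Kpoly (U : Finset (Fin n)) (Y : Input n) : ev (Kpoly U) Y = K U Y := by
  simp [ev, Kpoly, K, map_prod]

theorem card_inside_le (U : Finset (Fin n)) : (inside U).card ≤ U.card ^ 2 := by
  have : (inside U).card ≤ (U ×ˢ U).card := by
    refine Finset.card_le_card_of_injOn (fun e => e.1) ?_ ?_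
    · intro e he
      have := mem_inside.mp (Finset.mem_coe.mp he)
      simp [this.1, this.2]
    · intro e _ e' _ h
      exact Subtype.ext h
  rw [Finset.card_product] at this
  nlinarith

theorem degree_Kpoly (U : Finset (Fin n)) : (Kpoly U).totalDegree ≤ U.card ^ 2 := by
  refine le_trans ?_ (card_inside_le U)
  unfold Kpoly
  refine le_trans (MvPolynomial.totalDegree_finset_prod _ _) ?_
  simp [MvPolynomial.totalDegree_X]

/-- number of edges leaving -/
theorem card_out (U S : Finset (Fin n)) :
    (U \ S).card * (U.card - 1) ≤ 2 * (inside U \ inside S).card := by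
  classical
  set A : Finset (Fin n × Fin n) := ((U \ S) ×ˢ U).filter fun x => x.1 ≠ x.2 with hA
  have hcard : A.card = (U \ S).card * (U.card - 1) := by
    have h1 : A = (U \ S).biUnion fun v => (U.erase v).image fun w => (v, w) := by
      ext ⟨v, w⟩
      simp only [hA, Finset.mem_filter, Finset.mem_product, Finset.mem_sdiff, Finset.mem_biUnion,
        Finset.mem_image, Finset.mem_erase, Prod.mk.injEq]
      constructor
      · rintro ⟨⟨⟨h1, h2⟩, h3⟩, h4⟩
        exact ⟨v, ⟨h1, h2⟩, w, ⟨fun h => h4 h.symm, h3⟩, rfl, rfl⟩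
      · rintro ⟨a, ⟨h1, h2⟩, b, ⟨h3, h4⟩, rfl, rfl⟩
        exact ⟨⟨⟨h1, h2⟩, h4⟩, fun h => h3 h.symm⟩
    rw [h1, Finset.card_biUnion]
    · rw [Finset.sum_const_nat (m := U.card - 1)]
      intro v hv
      rw [Finset.card_image_of_injective _ (fun a b h => (Prod.mk.inj h).2),
        Finset.card_erase_of_mem (Finset.mem_sdiff.mp hv).1]
    · intro v _ w _ hvw
      rw [Function.onFun, Finset.disjoint_left]
      rintro ⟨a, b⟩ h1 h2
      simp only [Finset.mem_image, Prod.mk.injEq] at h1 h2
      obtain ⟨_, _, rfl, _⟩ := h1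
      obtain ⟨_, _, h, _⟩ := h2
      exact hvw h.symm
  rw [← hcard]
  have hsplit : A.card = (A.filter fun x => x.1 < x.2).card + (A.filter fun x => ¬ x.1 < x.2).card :=
    (Finset.card_filter_add_card_filter_not _).symm
  have hlt : (A.filter fun x => x.1 < x.2).card ≤ (inside U \ inside S).card := by
    have : (A.filter fun x => x.1 < x.2) ⊆ (inside U \ inside S).image fun e => e.1 := by
      rintro ⟨v, w⟩ h
      simp only [hA, Finset.mem_filter, Finset.mem_product, Finset.mem_sdiff] at h
      obtain ⟨⟨⟨⟨h1, h2⟩, h3⟩, h4⟩, h5⟩ := h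
      rw [Finset.mem_image]
      refine ⟨⟨(v, w), h5⟩, ?_, rfl⟩
      rw [Finset.mem_sdiff, mem_inside, mem_inside]
      exact ⟨⟨h1, h3⟩, fun h => h2 h.1⟩
    exact le_trans (Finset.card_le_card this) Finset.card_image_le
  have hgt : (A.filter fun x => ¬ x.1 < x.2).card ≤ (inside U \ inside S).card := by
    have : (A.filter fun x => ¬ x.1 < x.2) ⊆
        (inside U \ inside S).image fun e => (e.1.2, e.1.1) := by
      rintro ⟨v, w⟩ h
      simp only [hA, Finset.mem_filter, Finset.mem_product, Finset.mem_sdiff] at h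
      obtain ⟨⟨⟨⟨h1, h2⟩, h3⟩, h4⟩, h5⟩ := h
      rw [Finset.mem_image]
      have h6 : w < v := lt_of_le_of_ne (not_lt.mp h5) (fun h => h4 h.symm)
      refine ⟨⟨(w, v), h6⟩, ?_, rfl⟩
      rw [Finset.mem_sdiff, mem_inside, mem_inside]
      exact ⟨⟨h3, h1⟩, fun h => h2 h.2⟩
    exact le_trans (Finset.card_le_card this) Finset.card_image_le
  omega

/-! ### the null expectation -/

theorem EQ_mono {F G : Input n → ℝ} (h : ∀ Y, F Y ≤ G Y) : EQ F ≤ EQ G := by
  unfold EQ
  gcongr with Y
  exact h Y

theorem EQ_prod (F : Finset (Edge n)) :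
    EQ (fun Z : Input n => ∏ e ∈ F, (if Z e = true then (1:ℝ) else 0)) = (1/2) ^ F.card := by
  classical
  unfold EQ
  have h1 : ∀ Z : Input n, ∏ e ∈ F, (if Z e = true then (1:ℝ) else 0) =
      ∏ e : Edge n, (if e ∈ F then (if Z e = true then (1:ℝ) else 0) else 1) := by
    intro Z
    rw [Finset.prod_ite_mem, Finset.univ_inter]
  have h2 : ∑ Z : Input n, ∏ e ∈ F, (if Z e = true then (1:ℝ) else 0) =
      ∏ e : Edge n, ∑ b : Bool, (if e ∈ F then (if b = true then (1:ℝ) else 0) else 1) := by
    rw [Finset.prod_univ_sum, Fintype.piFinset_univ]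
    exact Finset.sum_congr rfl fun Z _ => h1 Z
  rw [h2]
  have h3 : ∀ e : Edge n, ∑ b : Bool, (if e ∈ F then (if b = true then (1:ℝ) else 0) else 1) =
      if e ∈ F then 1 else 2 := by
    intro e
    rw [Fintype.sum_bool]
    split_ifs <;> norm_num at *
  rw [Finset.prod_congr rfl (fun e _ => h3 e), Finset.prod_ite, Finset.prod_const_one, one_mul,
    Finset.prod_const]
  have h4 : (Finset.univ.filter fun e => e ∉ F).card + F.card = Fintype.card (Edge n) := by
    have := Finset.card_filter_add_card_filter_not (s := (Finset.univ : Finset (Edge n))) (fun e => e ∈ F)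
    rw [Finset.card_univ] at this
    rw [← this, add_comm]
    congr 2
    simp
  rw [← h4, pow_add, one_div, inv_pow]
  field_simp

theorem K_plant (U S : Finset (Fin n)) (Z : Input n) :
    K U (plant S Z) = ∏ e ∈ inside U \ inside S, (if Z e = true then (1:ℝ) else 0) := by
  classical
  unfold K
  rw [← Finset.prod_sdiff (Finset.inter_subset_left : inside U ∩ inside S ⊆ inside U),
    Finset.sdiff_inter_self_left]
  have h1 : ∏ e ∈ inside U ∩ inside S, (if plant S Z e = true then (1:ℝ) else 0) = 1 := by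
    refine Finset.prod_eq_one fun e he => ?_
    have := mem_inside.mp (Finset.mem_inter.mp he).2
    rw [if_pos]
    unfold plant
    simp [this.1, this.2]
  rw [h1, mul_one]
  refine Finset.prod_congr rfl fun e he => ?_
  have h2 := (Finset.mem_sdiff.mp he).2
  rw [mem_inside] at h2
  unfold plant
  simp [h2]

theorem K_plant_eq_one {U S : Finset (Fin n)} (h : U ⊆ S) (Z : Input n) :
    K U (plant S Z) = 1 := by
  rw [K_plant, Finset.sdiff_eq_empty_iff_subset.mpr, Finset.prod_empty]
  intro e he
  have := mem_inside.mp he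
  exact mem_inside.mpr ⟨h this.1, h this.2⟩

theorem EQ_K_plant (U S : Finset (Fin n)) :
    EQ (fun Z => K U (plant S Z)) = (1/2) ^ (inside U \ inside S).card := by
  rw [← EQ_prod]
  congr 1
  ext Z
  exact K_plant U S Z

theorem EQ_KK_plant (U V S : Finset (Fin n)) (s : ℕ) (hU : 4 * s + 1 ≤ U.card)
    (hV : 4 * s + 1 ≤ V.card) :
    EQ (fun Z => K U (plant S Z) * K V (plant S Z)) ≤ ((1/2) ^ s) ^ ((U ∪ V) \ S).card := by
  have h1 : EQ (fun Z => K U (plant S Z) * K V (plant S Z)) ≤
      (1/2) ^ (inside U \ inside S).card := by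
    rw [← EQ_K_plant]
    exact EQ_mono fun Z => mul_le_of_le_one_right (K_nonneg _ _) (K_le_one _ _)
  have h2 : EQ (fun Z => K U (plant S Z) * K V (plant S Z)) ≤
      (1/2) ^ (inside V \ inside S).card := by
    rw [← EQ_K_plant]
    exact EQ_mono fun Z => mul_le_of_le_one_left (K_nonneg _ _) (K_le_one _ _)
  have h3 := card_out U S
  have h4 := card_out V S
  have h5 : ((U ∪ V) \ S).card ≤ (U \ S).card + (V \ S).card := by
    rw [Finset.union_sdiff_distrib]
    exact Finset.card_union_le _ _
  have h6 : (U \ S).card * (4 * s) ≤ 2 * (inside U \ inside S).card :=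
    le_trans (Nat.mul_le_mul_left _ (by omega)) h3
  have h7 : (V \ S).card * (4 * s) ≤ 2 * (inside V \ inside S).card :=
    le_trans (Nat.mul_le_mul_left _ (by omega)) h4
  have h8 : s * ((U ∪ V) \ S).card ≤ max (inside U \ inside S).card (inside V \ inside S).card := by
    have h9 : s * ((U ∪ V) \ S).card ≤ s * ((U \ S).card + (V \ S).card) :=
      Nat.mul_le_mul_left _ h5
    rcases le_total (inside U \ inside S).card (inside V \ inside S).card with h | h
    · rw [max_eq_right h]; nlinarith
    · rw [max_eq_left h]; nlinarith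
  rw [← pow_mul]
  rcases le_max_iff.mp h8 with h | h
  · exact le_trans h1 (pow_le_pow_of_le_one (by norm_num) (by norm_num) h)
  · exact le_trans h2 (pow_le_pow_of_le_one (by norm_num) (by norm_num) h)

end Pool.Agent.N602.PC
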