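import Mathlib

/-!
# Planted clique: definitions (low-degree polynomials, separation, minimum mean square error)
-/

open scoped BigOperators
open Filter Asymptotics

namespace Pool.Agent.N602.PC

/-- The potential edges of a graph on the vertex set `Fin n`: pairs `i < j`. -/
abbrev Edge (n : ℕ) : Type := {e : Fin n × Fin n // e.1 < e.2}

/-- An input `Y ∈ {0,1}^(n choose 2)`: the edge indicators of a graph on `Fin n`. -/
abbrev Input (n : ℕ) : Type := Edge n → Bool

/-- The value of a polynomial in the edge variables at a `0/1` input. -/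
noncomputable def ev {n : ℕ} (f : MvPolynomial (Edge n) ℝ) (Y : Input n) : ℝ :=
  MvPolynomial.eval (fun e => if Y e = true then (1 : ℝ) else 0) f

/-- The union of the graph `Z` with the complete graph on `S`. -/
def plant {n : ℕ} (S : Finset (Fin n)) (Z : Input n) : Input n :=
  fun e => Z e || decide (e.1.1 ∈ S ∧ e.1.2 ∈ S)

/-- Expectation under the null distribution `G(n,1/2)` (uniform over all graphs). -/
noncomputable def EQ {n : ℕ} (F : Input n → ℝ) : ℝ :=
  (∑ Z : Input n, F Z) / 2 ^ Fintype.card (Edge n)

/-- Joint expectation of `(S, Y)` under the planted distribution: each vertex is in `S`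
independently with probability `k / n`, and `Y` is the union of an independent `G(n,1/2)`
with the complete graph on `S`. -/
noncomputable def EP {n : ℕ} (k : ℝ) (F : Finset (Fin n) → Input n → ℝ) : ℝ :=
  ∑ S : Finset (Fin n),
    (k / n) ^ S.card * (1 - k / n) ^ (n - S.card) * EQ (fun Z => F S (plant S Z))

/-- Mean of a polynomial under the planted distribution. -/
noncomputable def meanP {n : ℕ} (k : ℝ) (f : MvPolynomial (Edge n) ℝ) : ℝ :=
  EP k (fun _ Y => ev f Y)

/-- Mean of a polynomial under the null distribution. -/
noncomputable def meanQ {n : ℕ} (f : MvPolynomial (Edge n) ℝ) : ℝ :=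
  EQ (fun Y => ev f Y)

/-- Variance of a polynomial under the planted distribution. -/
noncomputable def varP {n : ℕ} (k : ℝ) (f : MvPolynomial (Edge n) ℝ) : ℝ :=
  EP k (fun _ Y => (ev f Y - meanP k f) ^ 2)

/-- Variance of a polynomial under the null distribution. -/
noncomputable def varQ {n : ℕ} (f : MvPolynomial (Edge n) ℝ) : ℝ :=
  EQ (fun Y => (ev f Y - meanQ f) ^ 2)

/-- The indicator that vertex `1` of the problem (the vertex with number `0` of `Fin n`)
lies in `S`. -/
noncomputable def xind {n : ℕ} (S : Finset (Fin n)) : ℝ :=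
  open Classical in if ∃ v ∈ S, (v : ℕ) = 0 then 1 else 0

/-- The degree-`D` minimum mean square error of estimating the indicator that vertex `1` is in
the planted set. -/
noncomputable def MMSE (n : ℕ) (k : ℝ) (D : ℕ) : ℝ :=
  ⨅ f : {f : MvPolynomial (Edge n) ℝ // f.totalDegree ≤ D},
    EP k (fun S Y => (ev f.1 Y - xind S) ^ 2)

/-- Some sequence of polynomials of degree at most `D n` strongly separates the planted from
the null distribution. -/
def StronglySeparates (k : ℕ → ℝ) (D : ℕ → ℕ) : Prop :=
  ∃ f : ∀ n : ℕ, MvPolynomial (Edge n) ℝ, (∀ n, (f n).totalDegree ≤ D n) ∧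
    (fun n => Real.sqrt (max (varP (k n) (f n)) (varQ (f n)))) =o[atTop]
      (fun n => |meanP (k n) (f n) - meanQ (f n)|)

/-- Degree `D` succeeds: strong separation, and the minimum mean square error is `o(1/n)`. -/
def Succeeds (k : ℕ → ℝ) (D : ℕ → ℕ) : Prop :=
  StronglySeparates k D ∧
    (fun n => MMSE n (k n) (D n)) =o[atTop] (fun n : ℕ => (1 : ℝ) / n)

end Pool.Agent.N602.PC
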