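import Pool.Agent.N602.PCRecover

open scoped BigOperators
open Filter Asymptotics

namespace Pool.Agent.N602.PC

/-- number of halvings -/
noncomputable def sN (n : ℕ) : ℕ := ⌈10 * Real.log n⌉₊
/-- number of blocks -/
noncomputable def tN (n : ℕ) : ℕ := 4 * sN n + 1
/-- block size -/
noncomputable def mN (n : ℕ) : ℕ := (n - 1) / (2 * tN n)
noncomputable def δN (k : ℕ → ℝ) (n : ℕ) : ℝ := (1 + (1/2) ^ sN n / (k n / n)) ^ (4 * tN n + 2) - 1
noncomputable def αN (k : ℕ → ℝ) (n : ℕ) : ℝ := (1 + 1 / (mN n * (k n / n))) ^ tN n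

theorem one_add_pow_le {y : ℝ} (R : ℕ) (h0 : 0 ≤ y) (h1 : R * y ≤ 1) :
    (1 + y) ^ R - 1 ≤ 2 * (R * y) := by
  have h2 : (1 + y) ^ R ≤ Real.exp (R * y) := by
    rw [mul_comm, Real.exp_mul, Real.rpow_natCast]
    apply pow_le_pow_left₀ (by linarith)
    linarith [Real.add_one_le_exp y]
  have h3 : |Real.exp (R * y) - 1| ≤ 2 * |R * y| := by
    apply Real.abs_exp_sub_one_le
    rw [abs_of_nonneg (by positivity)]; exact h1
  rw [abs_of_nonneg (a := (R:ℝ) * y) (by positivity)] at h3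
  have := (abs_le.mp h3).2
  linarith

theorem tN_le {n : ℕ} (h : 1 ≤ Real.log n) : (tN n : ℝ) ≤ 45 * Real.log n := by
  have h1 : ((sN n : ℕ) : ℝ) < 10 * Real.log n + 1 := Nat.ceil_lt_add_one (by linarith)
  unfold tN
  push_cast
  linarith

theorem eventually_log_ge (c : ℝ) : ∀ᶠ n : ℕ in atTop, c ≤ Real.log n :=
  (Real.tendsto_log_atTop.comp tendsto_natCast_atTop_atTop).eventually_ge_atTop c

theorem eventually_big : ∀ᶠ n : ℕ in atTop, 200 * Real.log n ≤ n := by
  have h : (fun n : ℕ => Real.log n) =o[atTop] (fun n : ℕ => (n:ℝ)) :=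
    Real.isLittleO_log_id_atTop.comp_tendsto tendsto_natCast_atTop_atTop
  filter_upwards [h.bound (by norm_num : (0:ℝ) < 1/200), eventually_log_ge 0] with n hn h0
  rw [Real.norm_of_nonneg h0, Real.norm_of_nonneg (Nat.cast_nonneg n)] at hn
  linarith

theorem half_pow_le {n : ℕ} (hn : 1 ≤ Real.log n) : ((1/2:ℝ)) ^ sN n ≤ 1 / (n:ℝ) ^ 6 := by
  have hn0 : (0:ℝ) < n := by
    by_contra h
    have : (n:ℝ) = 0 := le_antisymm (not_lt.mp h) (Nat.cast_nonneg n)
    rw [this, Real.log_zero] at hn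
    linarith
  have h1 : 10 * Real.log n ≤ (sN n : ℝ) := Nat.le_ceil _
  have h2 : (n:ℝ) ^ 6 ≤ 2 ^ sN n := by
    have h3 : (n:ℝ) ^ 6 = Real.exp (6 * Real.log n) := by
      rw [mul_comm, Real.exp_mul, Real.exp_log hn0]
      norm_num
    have h4 : (2:ℝ) ^ sN n = Real.exp (Real.log 2 * sN n) := by
      rw [Real.exp_mul, Real.exp_log (by norm_num), Real.rpow_natCast]
    rw [h3, h4]
    apply Real.exp_le_exp.mpr
    have h5 := Real.log_two_gt_d9
    nlinarith
  rw [one_div, inv_pow, one_div]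
  exact inv_anti₀ (by positivity) h2

theorem bounds (k : ℕ → ℝ) (hkn : ∀ n, k n ≤ n) (hk : Tendsto (fun n : ℕ => Real.log n ^ 4 / k n) atTop (nhds 0))
    (hk1 : ∀ᶠ n in atTop, 1 ≤ k n) :
    ∀ᶠ n : ℕ in atTop, 0 < mN n ∧ 2 * (tN n * mN n) + 1 ≤ n ∧ 0 < k n / n ∧ k n / n ≤ 1 ∧
      0 ≤ δN k n ∧ δN k n ≤ 2 / (n:ℝ) ^ 4 ∧ 1 ≤ αN k n ∧
      αN k n - 1 ≤ 20000 * (Real.log n ^ 2 / k n) ∧ αN k n ≤ 2 ∧
      (2 * tN n + 1) ^ 2 ≤ ⌈10000 * Real.log n ^ 2⌉₊ ∧ 1 ≤ Real.log n := by
  have h20 : ∀ᶠ n : ℕ in atTop, Real.log n ^ 4 / k n < 1 / 20000 :=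
    hk.eventually (gt_mem_nhds (by norm_num))
  filter_upwards [hk1, eventually_log_ge 1, eventually_big, h20, eventually_ge_atTop 10]
    with n hk1 hlog hbig hsmall hn10
  set L := Real.log n with hL
  have hn0 : (0:ℝ) < n := by positivity
  have ht := tN_le hlog
  rw [← hL] at ht
  have ht1 : (1:ℝ) ≤ tN n := by unfold tN; push_cast; linarith [(Nat.cast_nonneg (sN n) : (0:ℝ) ≤ sN n)]
  have htn : (tN n : ℝ) ≤ n * (45/200) := by nlinarith
  have hn10' : (10:ℝ) ≤ n := by exact_mod_cast hn10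
  have hmul : 2 * (tN n * mN n) ≤ n - 1 := by
    have := Nat.mul_div_le (n - 1) (2 * tN n)
    unfold mN
    rw [← mul_assoc]
    exact this
  have hlt : n - 1 < 2 * tN n * (mN n + 1) := by
    unfold mN
    exact Nat.lt_mul_div_succ _ (by unfold tN; omega)
  have hlt' : (n:ℝ) - 1 < 2 * tN n * (mN n + 1) := by
    have : ((n - 1 : ℕ) : ℝ) < ((2 * tN n * (mN n + 1) : ℕ) : ℝ) := by exact_mod_cast hlt
    push_cast [Nat.cast_sub (by omega : 1 ≤ n)] at this
    exact this
  -- lower bound on the block size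
  have hm4 : (n:ℝ) ≤ 4 * tN n * mN n := by nlinarith
  have hm : 0 < mN n := by
    rcases Nat.eq_zero_or_pos (mN n) with h | h
    · rw [h] at hm4; push_cast at hm4; linarith
    · exact h
  have hm' : (0:ℝ) < mN n := by exact_mod_cast hm
  have hp : 0 < k n / n := by positivity
  have hmp : k n / (4 * tN n) ≤ mN n * (k n / n) := by
    rw [div_le_iff₀ (by positivity)]
    have : (mN n:ℝ) * (k n / n) * (4 * tN n) = k n * ((4 * tN n * mN n) / n) := by
      field_simp
    rw [this]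
    have : 1 ≤ (4 * tN n * mN n : ℝ) / n := by rw [le_div_iff₀ hn0]; linarith
    nlinarith
  have hinv : 1 / (mN n * (k n / n)) ≤ 4 * tN n / k n := by
    rw [div_le_div_iff₀ (by positivity) (by positivity)]
    rw [div_le_iff₀ (by positivity)] at hmp
    linarith
  have hx : (tN n : ℝ) * (4 * tN n / k n) ≤ 10000 * (L ^ 2 / k n) := by
    have : (tN n : ℝ) * (4 * tN n / k n) = 4 * (tN n:ℝ) ^ 2 / k n := by ring
    rw [this, mul_div_assoc']
    rw [div_le_div_iff_of_pos_right (by linarith)]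
    nlinarith
  have hL24 : L ^ 2 / k n ≤ L ^ 4 / k n := by
    rw [div_le_div_iff_of_pos_right (by linarith)]
    exact pow_le_pow_right₀ hlog (by norm_num)
  have hx1 : (tN n : ℝ) * (4 * tN n / k n) ≤ 1 / 2 := by linarith
  have hα1 : αN k n - 1 ≤ 20000 * (L ^ 2 / k n) := by
    have h1 : αN k n ≤ (1 + 4 * tN n / k n) ^ tN n := by
      unfold αN
      apply pow_le_pow_left₀ (by positivity)
      linarith
    have h2 := one_add_pow_le (y := 4 * tN n / k n) (tN n) (by positivity) (by linarith)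
    linarith
  have hq := half_pow_le hlog
  have hR : ((4 * tN n + 2 : ℕ) : ℝ) ≤ n := by push_cast; nlinarith
  have hqp : (1/2:ℝ) ^ sN n / (k n / n) ≤ 1 / (n:ℝ) ^ 5 := by
    rw [div_le_iff₀ hp]
    calc (1/2:ℝ) ^ sN n ≤ 1 / (n:ℝ) ^ 6 := hq
      _ = 1 / (n:ℝ) ^ 5 * (1 / n) := by field_simp
      _ ≤ 1 / (n:ℝ) ^ 5 * (k n / n) := by gcongr
  have hRqp : ((4 * tN n + 2 : ℕ) : ℝ) * ((1/2:ℝ) ^ sN n / (k n / n)) ≤ 1 / (n:ℝ) ^ 4 := by
    calc _ ≤ (n:ℝ) * (1 / (n:ℝ) ^ 5) := by gcongr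
      _ = _ := by field_simp
  have h4le : 1 / (n:ℝ) ^ 4 ≤ 1 := by
    rw [div_le_one (by positivity)]
    exact one_le_pow₀ (by linarith)
  refine ⟨hm, by omega, hp, ?_, ?_, ?_, ?_, hα1, by linarith, ?_, hlog⟩
  · rw [div_le_one hn0]; exact hkn n
  · unfold δN
    have : (1:ℝ) ≤ (1 + (1/2) ^ sN n / (k n / n)) ^ (4 * tN n + 2) := by
      apply one_le_pow₀
      have : 0 ≤ (1/2:ℝ) ^ sN n / (k n / n) := by positivity
      linarith
    linarith
  · unfold δN
    have := one_add_pow_le (y := (1/2:ℝ) ^ sN n / (k n / n)) (4 * tN n + 2) (by positivity)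
      (by linarith)
    calc _ ≤ _ := this
      _ ≤ 2 * (1 / (n:ℝ) ^ 4) := by linarith
      _ = _ := by ring
  · unfold αN
    apply one_le_pow₀
    have : 0 ≤ 1 / ((mN n:ℝ) * (k n / n)) := by positivity
    linarith
  · have h1 : (((2 * tN n + 1) ^ 2 : ℕ) : ℝ) ≤ 10000 * L ^ 2 := by
      push_cast
      nlinarith
    exact_mod_cast h1.trans (Nat.le_ceil _)

theorem isLittleO_of_le {f g w : ℕ → ℝ} (hw : Tendsto w atTop (nhds 0))
    (h : ∀ᶠ n in atTop, |f n| ≤ w n * |g n|) : f =o[atTop] g := by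
  rw [isLittleO_iff]
  intro c hc
  filter_upwards [h, hw.eventually (gt_mem_nhds hc)] with n h1 h2
  rw [Real.norm_eq_abs, Real.norm_eq_abs]
  exact h1.trans (mul_le_mul_of_nonneg_right h2.le (abs_nonneg _))

/-- embeddings of the blocks -/
theorem exists_blocks (n t m : ℕ) (h : 2 * (t * m) + 1 ≤ n) :
    ∃ (e1 e2 : Fin t × Fin m → Fin n) (v : Fin n), Function.Injective e1 ∧ Function.Injective e2 ∧
      (∀ a b, e1 a ≠ e2 b) ∧ (∀ a, e1 a ≠ v) ∧ (∀ a, e2 a ≠ v) ∧ (v : ℕ) = 0 := by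
  have hcard : Fintype.card (Option ((Fin t × Fin m) ⊕ (Fin t × Fin m))) ≤ Fintype.card (Fin n) := by
    simp; omega
  obtain ⟨E⟩ := Function.Embedding.nonempty_of_card_le hcard
  let v : Fin n := ⟨0, by omega⟩
  let σ : Equiv.Perm (Fin n) := Equiv.swap (E none) v
  refine ⟨fun a => σ (E (some (Sum.inl a))), fun a => σ (E (some (Sum.inr a))), v, ?_, ?_, ?_, ?_,
    ?_, rfl⟩
  · intro a b hab
    have := E.injective (σ.injective hab)
    simpa using this
  · intro a b hab
    have := E.injective (σ.injective hab)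
    simpa using this
  · intro a b hab
    have := E.injective (σ.injective hab)
    simp at this
  · intro a hab
    have h1 : σ (E none) = v := Equiv.swap_apply_left _ _
    rw [← h1] at hab
    have := E.injective (σ.injective hab)
    simp at this
  · intro a hab
    have h1 : σ (E none) = v := Equiv.swap_apply_left _ _
    rw [← h1] at hab
    have := E.injective (σ.injective hab)
    simp at this

theorem main (k : ℕ → ℝ) (hk0 : ∀ n, 0 ≤ k n) (hkn : ∀ n, k n ≤ n)
    (hk : Tendsto (fun n : ℕ => Real.log n ^ 4 / k n) atTop (nhds 0))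
    (hk1 : ∀ᶠ n in atTop, 1 ≤ k n) :
    Succeeds k (fun n => ⌈10000 * Real.log n ^ 2⌉₊) := by
  classical
  have hb := bounds k hkn hk hk1
  have hn1 : Tendsto (fun n : ℕ => (1:ℝ) / n) atTop (nhds 0) := tendsto_one_div_atTop_nhds_zero_nat
  have hL2 : Tendsto (fun n : ℕ => Real.log n ^ 2 / k n) atTop (nhds 0) := by
    refine squeeze_zero' ?_ ?_ hk
    · filter_upwards with n
      exact div_nonneg (sq_nonneg _) (hk0 n)
    · filter_upwards [hk1, eventually_log_ge 1] with n h1 h2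
      rw [div_le_div_iff_of_pos_right (by linarith)]
      exact pow_le_pow_right₀ h2 (by norm_num)
  constructor
  · -- strong separation
    let f : ∀ n : ℕ, MvPolynomial (Edge n) ℝ := fun n =>
      if h : 2 * (tN n * mN n) + 1 ≤ n ∧ (2 * tN n + 1) ^ 2 ≤ ⌈10000 * Real.log n ^ 2⌉₊ then
        cpoly (tset (exists_blocks n (tN n) (mN n) h.1).choose) else 0
    refine ⟨f, ?_, ?_⟩
    · intro n
      simp only [f]
      split_ifs with h
      · have he := (exists_blocks n (tN n) (mN n) h.1).choose_spec.choose_spec.choose_spec.1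
        refine le_trans (degree_cpoly _ (tN n) fun g => (card_tset he g).le) ?_
        refine le_trans ?_ h.2
        exact Nat.pow_le_pow_left (by omega) 2
      · simp
    · have hw : Tendsto (fun n : ℕ => 2 * Real.sqrt (40000 * (Real.log n ^ 2 / k n) + 8 * (1 / n)))
          atTop (nhds 0) := by
        have h1 : Tendsto (fun n : ℕ => 40000 * (Real.log n ^ 2 / k n) + 8 * ((1:ℝ) / n)) atTop
            (nhds 0) := by
          simpa using (hL2.const_mul 40000).add (hn1.const_mul 8)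
        have h2 := (Real.continuous_sqrt.tendsto 0).comp h1
        rw [Real.sqrt_zero] at h2
        simpa using h2.const_mul 2
      refine isLittleO_of_le hw ?_
      filter_upwards [hb, eventually_ge_atTop 16] with n hb hn16
      obtain ⟨hm, hle, hp, hp1, hδ0, hδ, hα1, hα, hα2, hdeg, hlog⟩ := hb
      have hn16' : (16:ℝ) ≤ n := by exact_mod_cast hn16
      have hf : f n = cpoly (tset (exists_blocks n (tN n) (mN n) hle).choose) := by
        simp only [f]
        rw [dif_pos ⟨hle, hdeg⟩]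
      have he := (exists_blocks n (tN n) (mN n) hle).choose_spec.choose_spec.choose_spec.1
      obtain ⟨d1, d2, d3, d4⟩ := detection (s := sN n) he rfl hm (k n) hp hp1 (δN k n) (αN k n)
        rfl rfl
      rw [← hf] at d1 d2 d3 d4
      set μ : ℝ := (mN n * (k n / n)) ^ tN n with hμ
      have hm' : (0:ℝ) < mN n := by exact_mod_cast hm
      have hμ0 : 0 < μ := by positivity
      set w : ℝ := 40000 * (Real.log n ^ 2 / k n) + 8 * (1 / n) with hwdef
      have hn4 : 2 / (n:ℝ) ^ 4 ≤ 2 * (1 / n) * (1/64) := by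
        rw [div_le_iff₀ (by positivity)]
        have : 2 * (1 / (n:ℝ)) * (1/64) * (n:ℝ) ^ 4 = (n:ℝ) ^ 3 / 32 := by field_simp; norm_num
        rw [this]
        nlinarith [pow_le_pow_left₀ (by norm_num : (0:ℝ) ≤ 16) hn16' 3]
      have hδα : δN k n * αN k n ≤ 4 * (1 / n) * (1/64) := by
        have h1 : δN k n * αN k n ≤ (2 * (1 / n) * (1/64)) * 2 := by
          apply mul_le_mul (hδ.trans hn4) hα2 (by linarith) (by positivity)
        linarith
      have hn0 : (0:ℝ) < 1 / n := by positivity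
      have hn116 : (1:ℝ) / n ≤ 1 / 16 := by
        rw [div_le_div_iff₀ (by linarith) (by norm_num)]; linarith
      have hδα0 : 0 ≤ δN k n * αN k n := mul_nonneg hδ0 (by linarith)
      have hw0 : 0 ≤ w := by
        have : 0 ≤ Real.log n ^ 2 / k n := div_nonneg (sq_nonneg _) (hk0 n)
        positivity
      have hvar : max (varP (k n) (f n)) (varQ (f n)) ≤ μ ^ 2 * w := by
        apply max_le
        · refine d2.trans (mul_le_mul_of_nonneg_left ?_ (sq_nonneg _))
          rw [hwdef]; linarith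
        · refine d3.trans (mul_le_mul_of_nonneg_left ?_ (sq_nonneg _))
          have : 0 ≤ Real.log n ^ 2 / k n := div_nonneg (sq_nonneg _) (hk0 n)
          rw [hwdef]; linarith
      have hsq : Real.sqrt (max (varP (k n) (f n)) (varQ (f n))) ≤ μ * Real.sqrt w := by
        calc _ ≤ Real.sqrt (μ ^ 2 * w) := Real.sqrt_le_sqrt hvar
          _ = μ * Real.sqrt w := by rw [Real.sqrt_mul (sq_nonneg _), Real.sqrt_sq hμ0.le]
      have hQ : |meanQ (f n)| ≤ μ / 2 := by
        apply abs_le_of_sq_le_sq _ (by positivity)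
        refine d4.trans ?_
        have : δN k n * αN k n ≤ 1 / 4 := by linarith
        nlinarith [sq_nonneg μ]
      have hdiff : μ / 2 ≤ |meanP (k n) (f n) - meanQ (f n)| := by
        have h1 := (abs_le.mp hQ).2
        refine le_trans ?_ (le_abs_self _)
        linarith
      rw [abs_of_nonneg (Real.sqrt_nonneg _), abs_abs]
      calc Real.sqrt (max (varP (k n) (f n)) (varQ (f n))) ≤ μ * Real.sqrt w := hsq
        _ = 2 * Real.sqrt w * (μ / 2) := by ring
        _ ≤ _ := mul_le_mul_of_nonneg_left hdiff (by positivity)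
  · -- recovery
    have hw : Tendsto (fun n : ℕ => 4 * (20000 ^ 2 * (Real.log n ^ 4 / k n) + 16 * (1 / n)))
        atTop (nhds 0) := by
      simpa using ((hk.const_mul (20000 ^ 2)).add (hn1.const_mul 16)).const_mul 4
    refine isLittleO_of_le hw ?_
    filter_upwards [hb, hk1, eventually_ge_atTop 16] with n hb hk1 hn16
    obtain ⟨hm, hle, hp, hp1, hδ0, hδ, hα1, hα, hα2, hdeg, hlog⟩ := hb
    have hn16' : (16:ℝ) ≤ n := by exact_mod_cast hn16
    have hn0 : (0:ℝ) < n := by linarith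
    obtain ⟨e1, e2, v, he1, he2, h12, h1v, h2v, hv⟩ := exists_blocks n (tN n) (mN n) hle
    have hrec := recovery (s := sN n) he1 he2 h12 h1v h2v hv rfl hm (k n) hp hp1 (δN k n)
      (αN k n) rfl rfl
    have hdeg' : (est ((mN n * (k n / n)) ^ tN n)⁻¹ (tset e1) (tset e2) v).totalDegree ≤
        ⌈10000 * Real.log n ^ 2⌉₊ :=
      (degree_est _ _ _ _ (tN n) (fun g => (card_tset he1 g).le)
        (fun g => (card_tset he2 g).le)).trans hdeg
    have hM0 : 0 ≤ MMSE n (k n) ⌈10000 * Real.log n ^ 2⌉₊ := by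
      unfold MMSE
      exact Real.iInf_nonneg fun f => EP_nonneg hp.le hp1 fun S Y => sq_nonneg _
    have hM1 : MMSE n (k n) ⌈10000 * Real.log n ^ 2⌉₊ ≤
        4 * ((k n / n) * ((αN k n - 1) ^ 2 + 2 * (δN k n * αN k n) + δN k n * αN k n ^ 2)) := by
      refine le_trans ?_ hrec
      unfold MMSE
      refine ciInf_le ⟨0, ?_⟩ (⟨_, hdeg'⟩ : {f : MvPolynomial (Edge n) ℝ //
        f.totalDegree ≤ ⌈10000 * Real.log n ^ 2⌉₊})
      rintro _ ⟨f, rfl⟩
      exact EP_nonneg hp.le hp1 fun S Y => sq_nonneg _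
    have hα0 : 0 ≤ αN k n - 1 := by linarith
    have hsq : (αN k n - 1) ^ 2 ≤ (20000 * (Real.log n ^ 2 / k n)) ^ 2 :=
      pow_le_pow_left₀ hα0 hα 2
    have hrest : 2 * (δN k n * αN k n) + δN k n * αN k n ^ 2 ≤ 8 * (2 / (n:ℝ) ^ 4) := by
      have h1 : αN k n ^ 2 ≤ 4 := by nlinarith
      have h2 : δN k n * αN k n ≤ δN k n * 2 := mul_le_mul_of_nonneg_left hα2 hδ0
      have h3 : δN k n * αN k n ^ 2 ≤ δN k n * 4 := mul_le_mul_of_nonneg_left h1 hδ0
      linarith
    rw [abs_of_nonneg hM0, abs_of_nonneg (by positivity)]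
    refine hM1.trans ?_
    have hkpos : 0 < k n := by linarith
    have hsum : (αN k n - 1) ^ 2 + 2 * (δN k n * αN k n) + δN k n * αN k n ^ 2 ≤
        (20000 * (Real.log n ^ 2 / k n)) ^ 2 + 8 * (2 / (n:ℝ) ^ 4) := by linarith
    have hlast : k n / (n:ℝ) ^ 4 ≤ 1 / n := by
      rw [div_le_div_iff₀ (by positivity) hn0]
      have h1 := hkn n
      have h2 : (n:ℝ) ^ 2 ≤ (n:ℝ) ^ 4 := pow_le_pow_right₀ (by linarith) (by norm_num)
      nlinarith
    calc 4 * ((k n / n) * ((αN k n - 1) ^ 2 + 2 * (δN k n * αN k n) + δN k n * αN k n ^ 2))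
        ≤ 4 * ((k n / n) * ((20000 * (Real.log n ^ 2 / k n)) ^ 2 + 8 * (2 / (n:ℝ) ^ 4))) := by
          apply mul_le_mul_of_nonneg_left _ (by norm_num)
          exact mul_le_mul_of_nonneg_left hsum hp.le
      _ = 4 * (20000 ^ 2 * (Real.log n ^ 4 / k n) + 16 * (k n / (n:ℝ) ^ 4)) * (1 / n) := by
          field_simp
          ring
      _ ≤ 4 * (20000 ^ 2 * (Real.log n ^ 4 / k n) + 16 * (1 / n)) * (1 / n) := by
          apply mul_le_mul_of_nonneg_right _ (by positivity)
          linarith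

end Pool.Agent.N602.PC
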