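import Pool.Agent.N602.PCBasic

open scoped BigOperators
open Filter Asymptotics

namespace Pool.Agent.N602.PC

variable {n : ℕ}

/-! ### linearity of the expectations -/

theorem EQ_add (F G : Input n → ℝ) : EQ (fun Y => F Y + G Y) = EQ F + EQ G := by
  unfold EQ; rw [Finset.sum_add_distrib, add_div]

theorem EQ_const_mul (c : ℝ) (F : Input n → ℝ) : EQ (fun Y => c * F Y) = c * EQ F := by
  unfold EQ; rw [← Finset.mul_sum, mul_div_assoc]

theorem EQ_const (c : ℝ) : EQ (fun _ : Input n => c) = c := by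
  unfold EQ
  rw [Finset.sum_const, Finset.card_univ, Fintype.card_fun, Fintype.card_bool, nsmul_eq_mul]
  push_cast
  field_simp

theorem EQ_sum {ι : Type*} (s : Finset ι) (F : ι → Input n → ℝ) :
    EQ (fun Y => ∑ i ∈ s, F i Y) = ∑ i ∈ s, EQ (F i) := by
  unfold EQ
  rw [Finset.sum_comm, Finset.sum_div]

theorem EQ_nonneg {F : Input n → ℝ} (h : ∀ Y, 0 ≤ F Y) : 0 ≤ EQ F := by
  unfold EQ
  have : 0 ≤ ∑ Z : Input n, F Z := Finset.sum_nonneg fun Z _ => h Z
  positivity

theorem EP_eq (k : ℝ) (F : Finset (Fin n) → Input n → ℝ) :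
    EP k F = ∑ S : Finset (Fin n), wt n (k / n) S * EQ (fun Z => F S (plant S Z)) := rfl

theorem EP_add (k : ℝ) (F G : Finset (Fin n) → Input n → ℝ) :
    EP k (fun S Y => F S Y + G S Y) = EP k F + EP k G := by
  simp only [EP_eq]
  rw [← Finset.sum_add_distrib]
  refine Finset.sum_congr rfl fun S _ => ?_
  rw [EQ_add]; ring

theorem EP_const_mul (k c : ℝ) (F : Finset (Fin n) → Input n → ℝ) :
    EP k (fun S Y => c * F S Y) = c * EP k F := by
  simp only [EP_eq]
  rw [Finset.mul_sum]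
  refine Finset.sum_congr rfl fun S _ => ?_
  rw [EQ_const_mul]; ring

theorem EP_S (k : ℝ) (F : Finset (Fin n) → ℝ) :
    EP k (fun S (_ : Input n) => F S) = ∑ S : Finset (Fin n), wt n (k / n) S * F S := by
  simp only [EP_eq, EQ_const]

theorem EP_const (k c : ℝ) : EP k (fun _ (_ : Input n) => c) = c := by
  rw [EP_S, ← Finset.sum_mul, sum_wt, one_mul]

theorem EP_mono {k : ℝ} (h0 : 0 ≤ k / n) (h1 : k / n ≤ 1) {F G : Finset (Fin n) → Input n → ℝ}
    (h : ∀ S Z, F S (plant S Z) ≤ G S (plant S Z)) : EP k F ≤ EP k G := by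
  simp only [EP_eq]
  refine Finset.sum_le_sum fun S _ => ?_
  exact mul_le_mul_of_nonneg_left (EQ_mono fun Z => h S Z) (wt_nonneg h0 h1 S)

theorem EP_nonneg {k : ℝ} (h0 : 0 ≤ k / n) (h1 : k / n ≤ 1) {F : Finset (Fin n) → Input n → ℝ}
    (h : ∀ S Y, 0 ≤ F S Y) : 0 ≤ EP k F := by
  simp only [EP_eq]
  exact Finset.sum_nonneg fun S _ => mul_nonneg (wt_nonneg h0 h1 S) (EQ_nonneg fun Z => h S _)

theorem EQ_var_le (F : Input n → ℝ) (c : ℝ) :
    EQ (fun Y => (F Y - EQ F) ^ 2) ≤ EQ (fun Y => (F Y - c) ^ 2) := by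
  have h : ∀ a : ℝ, EQ (fun Y => (F Y - a) ^ 2) = EQ (fun Y => F Y ^ 2) + (-2 * a) * EQ F + a ^ 2 := by
    intro a
    have hc : EQ (fun _ : Input n => a ^ 2) = a ^ 2 := EQ_const _
    calc EQ (fun Y => (F Y - a) ^ 2) = EQ (fun Y => (F Y ^ 2 + (-2 * a) * F Y) + a ^ 2) := by
          congr 1; ext Y; ring
      _ = _ := by rw [EQ_add, EQ_add, EQ_const_mul, hc]
  rw [h, h]
  nlinarith [sq_nonneg (EQ F - c)]

theorem EP_var_le (k : ℝ) (F : Finset (Fin n) → Input n → ℝ) (c : ℝ) :
    EP k (fun S Y => (F S Y - EP k F) ^ 2) ≤ EP k (fun S Y => (F S Y - c) ^ 2) := by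
  have h : ∀ a : ℝ, EP k (fun S Y => (F S Y - a) ^ 2) =
      EP k (fun S Y => F S Y ^ 2) + (-2 * a) * EP k F + a ^ 2 := by
    intro a
    have hc : EP k (fun _ (_ : Input n) => a ^ 2) = a ^ 2 := EP_const _ _
    calc EP k (fun S Y => (F S Y - a) ^ 2)
        = EP k (fun S Y => (F S Y ^ 2 + (-2 * a) * F S Y) + a ^ 2) := by
          congr 1; ext S Y; ring
      _ = _ := by rw [EP_add k (fun S Y => F S Y ^ 2 + (-2 * a) * F S Y), EP_add, EP_const_mul, hc]
  rw [h, h]
  nlinarith [sq_nonneg (EP k F - c)]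

theorem EQ_sq_le (F : Input n → ℝ) : EQ F ^ 2 ≤ EQ (fun Y => F Y ^ 2) := by
  have h := EQ_nonneg (n := n) (F := fun Y => (F Y - EQ F) ^ 2) (fun Y => sq_nonneg _)
  have h2 : EQ (fun Y => (F Y - EQ F) ^ 2) =
      EQ (fun Y => F Y ^ 2) + (-2 * EQ F) * EQ F + EQ F ^ 2 := by
    have hc : EQ (fun _ : Input n => EQ F ^ 2) = EQ F ^ 2 := EQ_const _
    calc EQ (fun Y => (F Y - EQ F) ^ 2)
        = EQ (fun Y => (F Y ^ 2 + (-2 * EQ F) * F Y) + EQ F ^ 2) := by
          congr 1; ext Y; ring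
      _ = _ := by rw [EQ_add, EQ_add, EQ_const_mul, hc]
  nlinarith

/-! ### the noise bound -/

/-- indicator that `U` is not contained in `S` -/
noncomputable def nind (U S : Finset (Fin n)) : ℝ := if U ⊆ S then 0 else 1

theorem nind_nonneg (U S : Finset (Fin n)) : 0 ≤ nind U S := by
  unfold nind; split_ifs <;> norm_num

theorem nind_mul_le (U V S : Finset (Fin n)) : nind U S * nind V S ≤ nind (U ∪ V) S := by
  unfold nind
  by_cases hU : U ⊆ S
  · rw [if_pos hU]; split_ifs <;> norm_num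
  · have : ¬ (U ∪ V ⊆ S) := fun h => hU (Finset.union_subset_left h)
    rw [if_neg hU, if_neg this]
    split_ifs <;> norm_num

/-- the noise part of a clique count -/
noncomputable def noise {ι : Type*} [Fintype ι] (U : ι → Finset (Fin n)) (S : Finset (Fin n))
    (Y : Input n) : ℝ := ∑ i, nind (U i) S * K (U i) Y

/-- the second moment of the set part -/
noncomputable def mom {ι : Type*} [Fintype ι] (p : ℝ) (U : ι → Finset (Fin n)) : ℝ :=
  ∑ i, ∑ j, p ^ (U i ∪ U j).card

theorem noise_sq_le {ι : Type*} [Fintype ι] (k : ℝ) (hp : 0 < k / n) (hp1 : k / n ≤ 1)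
    (U : ι → Finset (Fin n)) (s R : ℕ) (hU : ∀ i, 4 * s + 1 ≤ (U i).card)
    (hR : ∀ i j, (U i ∪ U j).card ≤ R) :
    EP k (fun S Y => noise U S Y ^ 2) ≤
      ((1 + (1/2) ^ s / (k / n)) ^ R - 1) * mom (k / n) U := by
  set p := k / n with hpdef
  set q : ℝ := (1/2) ^ s with hq
  have hq0 : 0 ≤ q := by positivity
  have h1 : ∀ S : Finset (Fin n), EQ (fun Z => noise U S (plant S Z) ^ 2) ≤
      ∑ i, ∑ j, nind (U i ∪ U j) S * q ^ ((U i ∪ U j) \ S).card := by
    intro S
    have h2 : (fun Z => noise U S (plant S Z) ^ 2) = fun Z => ∑ i, ∑ j,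
        (nind (U i) S * nind (U j) S) * (K (U i) (plant S Z) * K (U j) (plant S Z)) := by
      ext Z
      unfold noise
      rw [sq, Finset.sum_mul_sum]
      refine Finset.sum_congr rfl fun i _ => Finset.sum_congr rfl fun j _ => ?_
      ring
    rw [h2, EQ_sum]
    refine Finset.sum_le_sum fun i _ => ?_
    rw [EQ_sum]
    refine Finset.sum_le_sum fun j _ => ?_
    rw [EQ_const_mul]
    have h3 := EQ_KK_plant (U i) (U j) S s (hU i) (hU j)
    have h4 := nind_mul_le (U i) (U j) S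
    have h5 : 0 ≤ nind (U i) S * nind (U j) S := mul_nonneg (nind_nonneg _ _) (nind_nonneg _ _)
    calc nind (U i) S * nind (U j) S * EQ (fun Z => K (U i) (plant S Z) * K (U j) (plant S Z))
        ≤ nind (U i) S * nind (U j) S * q ^ ((U i ∪ U j) \ S).card :=
          mul_le_mul_of_nonneg_left h3 h5
      _ ≤ _ := mul_le_mul_of_nonneg_right h4 (by positivity)
  rw [EP_eq]
  calc ∑ S : Finset (Fin n), wt n p S * EQ (fun Z => noise U S (plant S Z) ^ 2)
      ≤ ∑ S : Finset (Fin n), wt n p S *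
          ∑ i, ∑ j, nind (U i ∪ U j) S * q ^ ((U i ∪ U j) \ S).card :=
        Finset.sum_le_sum fun S _ => mul_le_mul_of_nonneg_left (h1 S) (wt_nonneg hp.le hp1 S)
    _ = ∑ i, ∑ j, ∑ S : Finset (Fin n), wt n p S *
          (nind (U i ∪ U j) S * q ^ ((U i ∪ U j) \ S).card) := by
        simp_rw [Finset.mul_sum]
        rw [Finset.sum_comm]
        refine Finset.sum_congr rfl fun i _ => ?_
        rw [Finset.sum_comm]
    _ = ∑ i, ∑ j, ((p + (1 - p) * q) ^ (U i ∪ U j).card - p ^ (U i ∪ U j).card) := by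
        refine Finset.sum_congr rfl fun i _ => Finset.sum_congr rfl fun j _ => ?_
        exact sum_wt_noise p q (U i ∪ U j)
    _ ≤ ∑ i, ∑ j, ((1 + q / p) ^ R - 1) * p ^ (U i ∪ U j).card := by
        refine Finset.sum_le_sum fun i _ => Finset.sum_le_sum fun j _ => ?_
        have h6 : (p + (1 - p) * q) ^ (U i ∪ U j).card ≤
            (p * (1 + q / p)) ^ (U i ∪ U j).card := by
          apply pow_le_pow_left₀
          · have : 0 ≤ (1 - p) * q := mul_nonneg (by linarith) hq0
            linarith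
          · have : p * (1 + q / p) = p + q := by field_simp
            rw [this]; nlinarith
        have h7 : (1 + q / p) ^ (U i ∪ U j).card ≤ (1 + q / p) ^ R :=
          pow_le_pow_right₀ (by have : 0 ≤ q / p := by positivity
                                linarith) (hR i j)
        rw [mul_pow] at h6
        have h8 : 0 ≤ p ^ (U i ∪ U j).card := by positivity
        nlinarith
    _ = ((1 + q / p) ^ R - 1) * mom p U := by
        unfold mom
        simp_rw [Finset.mul_sum]

theorem EQ_sq_clique_le {ι : Type*} [Fintype ι] (p : ℝ) (hp : 0 < p)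
    (U : ι → Finset (Fin n)) (s R : ℕ) (hU : ∀ i, 4 * s + 1 ≤ (U i).card)
    (hR : ∀ i j, (U i ∪ U j).card ≤ R) :
    EQ (fun Y => (∑ i, K (U i) Y) ^ 2) ≤
      ((1 + (1/2) ^ s / p) ^ R - 1) * mom p U := by
  set q : ℝ := (1/2) ^ s with hq
  have hq0 : 0 ≤ q := by positivity
  have hplant : ∀ Z : Input n, plant ∅ Z = Z := by
    intro Z; ext e; simp [plant]
  have h2 : (fun Y : Input n => (∑ i, K (U i) Y) ^ 2) = fun Y => ∑ i, ∑ j,
      K (U i) Y * K (U j) Y := by
    ext Z
    rw [sq, Finset.sum_mul_sum]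
  rw [h2, EQ_sum]
  unfold mom
  rw [Finset.mul_sum]
  refine Finset.sum_le_sum fun i _ => ?_
  rw [EQ_sum, Finset.mul_sum]
  refine Finset.sum_le_sum fun j _ => ?_
  have h3 := EQ_KK_plant (U i) (U j) ∅ s (hU i) (hU j)
  simp only [hplant, Finset.sdiff_empty] at h3
  refine le_trans h3 ?_
  rw [← hq]
  have hne : (U i ∪ U j).card ≠ 0 := by
    have := hU i
    have h4 : (U i).card ≤ (U i ∪ U j).card := Finset.card_le_card Finset.subset_union_left
    omega
  have h5 := pow_add_pow_le hp.le hq0 hne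
  have h6 : p + q = p * (1 + q / p) := by field_simp
  rw [h6, mul_pow] at h5
  have h7 : (1 + q / p) ^ (U i ∪ U j).card ≤ (1 + q / p) ^ R :=
    pow_le_pow_right₀ (by have : 0 ≤ q / p := by positivity
                          linarith) (hR i j)
  have h8 : 0 ≤ p ^ (U i ∪ U j).card := by positivity
  nlinarith

/-! ### transversal families -/

/-- the set of a transversal -/
def tset {t m : ℕ} (e : Fin t × Fin m → Fin n) (g : Fin t → Fin m) : Finset (Fin n) :=
  Finset.univ.image fun i => e (i, g i)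

theorem card_tset {t m : ℕ} {e : Fin t × Fin m → Fin n} (he : Function.Injective e)
    (g : Fin t → Fin m) : (tset e g).card = t := by
  unfold tset
  rw [Finset.card_image_of_injective, Finset.card_univ, Fintype.card_fin]
  intro i j h
  exact (Prod.mk.inj (he h)).1

theorem card_tset_union {t m : ℕ} {e : Fin t × Fin m → Fin n} (he : Function.Injective e)
    (g h : Fin t → Fin m) :
    (tset e g ∪ tset e h).card = ∑ i, if g i = h i then 1 else 2 := by
  have h1 : tset e g ∪ tset e h = Finset.univ.biUnion fun i => {e (i, g i), e (i, h i)} := by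
    ext v
    simp only [tset, Finset.mem_union, Finset.mem_image, Finset.mem_univ, true_and,
      Finset.mem_biUnion, Finset.mem_insert, Finset.mem_singleton]
    constructor
    · rintro (⟨i, rfl⟩ | ⟨i, rfl⟩)
      · exact ⟨i, Or.inl rfl⟩
      · exact ⟨i, Or.inr rfl⟩
    · rintro ⟨i, rfl | rfl⟩
      · exact Or.inl ⟨i, rfl⟩
      · exact Or.inr ⟨i, rfl⟩
  rw [h1, Finset.card_biUnion]
  · refine Finset.sum_congr rfl fun i _ => ?_
    split_ifs with hi
    · rw [hi]; simp
    · rw [Finset.card_pair]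
      intro h2
      exact hi (Prod.mk.inj (he h2)).2
  · intro i _ j _ hij
    rw [Function.onFun, Finset.disjoint_left]
    intro v hv hv'
    simp only [Finset.mem_insert, Finset.mem_singleton] at hv hv'
    apply hij
    rcases hv with rfl | rfl <;> rcases hv' with h2 | h2 <;> exact (Prod.mk.inj (he h2)).1

theorem mom_tset {t m : ℕ} {e : Fin t × Fin m → Fin n} (he : Function.Injective e) (p : ℝ) :
    mom p (tset e) = (∑ a : Fin m, ∑ b : Fin m, p ^ (if a = b then 1 else 2)) ^ t := by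
  unfold mom
  have h1 : ∀ g h : Fin t → Fin m, p ^ (tset e g ∪ tset e h).card =
      ∏ i, p ^ (if g i = h i then 1 else 2) := by
    intro g h
    rw [card_tset_union he, Finset.prod_pow_eq_pow_sum]
  simp_rw [h1]
  have h2 : ∀ g : Fin t → Fin m, ∑ h : Fin t → Fin m, ∏ i, p ^ (if g i = h i then 1 else 2) =
      ∏ i, ∑ b : Fin m, p ^ (if g i = b then 1 else 2) := by
    intro g
    rw [Finset.prod_univ_sum, Fintype.piFinset_univ]
  simp_rw [h2]
  have h3 : (∑ a : Fin m, ∑ b : Fin m, p ^ (if a = b then 1 else 2)) ^ t =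
      ∏ _i : Fin t, ∑ a : Fin m, ∑ b : Fin m, p ^ (if a = b then 1 else 2) := by
    rw [Finset.prod_const, Finset.card_univ, Fintype.card_fin]
  rw [h3, Finset.prod_univ_sum, Fintype.piFinset_univ]

theorem mom_tset_le {t m : ℕ} {e : Fin t × Fin m → Fin n} (he : Function.Injective e) {p : ℝ}
    (hp : 0 < p) (hm : 0 < m) :
    mom p (tset e) ≤ ((m * p) ^ t) ^ 2 * (1 + 1 / (m * p)) ^ t := by
  rw [mom_tset he, ← pow_mul, mul_comm t 2, pow_mul, ← mul_pow]
  have hm' : (0:ℝ) < m := by exact_mod_cast hm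
  apply pow_le_pow_left₀
  · exact Finset.sum_nonneg fun a _ => Finset.sum_nonneg fun b _ => by positivity
  · have h1 : ∀ a b : Fin m, p ^ (if a = b then 1 else 2) ≤ p ^ 2 + if a = b then p else 0 := by
      intro a b
      split_ifs
      · nlinarith
      · simp
    calc ∑ a : Fin m, ∑ b : Fin m, p ^ (if a = b then 1 else 2)
        ≤ ∑ a : Fin m, ∑ b : Fin m, (p ^ 2 + if a = b then p else 0) :=
          Finset.sum_le_sum fun a _ => Finset.sum_le_sum fun b _ => h1 a b
      _ = m * (m * p ^ 2 + p) := by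
          simp [Finset.sum_add_distrib]
          ring
      _ = _ := by field_simp

theorem mom1_tset {t m : ℕ} {e : Fin t × Fin m → Fin n} (he : Function.Injective e) (p : ℝ) :
    ∑ g, p ^ (tset e g).card = (m * p) ^ t := by
  simp_rw [card_tset he]
  rw [Finset.sum_const, Finset.card_univ, Fintype.card_fun, Fintype.card_fin, Fintype.card_fin,
    nsmul_eq_mul, mul_pow]
  push_cast
  ring

/-! ### detection -/

/-- the polynomial counting transversal cliques -/
noncomputable def cpoly {ι : Type*} [Fintype ι] (U : ι → Finset (Fin n)) :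
    MvPolynomial (Edge n) ℝ := ∑ i, Kpoly (U i)

theorem ev_cpoly {ι : Type*} [Fintype ι] (U : ι → Finset (Fin n)) (Y : Input n) :
    ev (cpoly U) Y = ∑ i, K (U i) Y := by
  have : ∀ i, MvPolynomial.eval (fun e => if Y e = true then (1 : ℝ) else 0) (Kpoly (U i)) =
      K (U i) Y := fun i => ev_Kpoly (U i) Y
  simp [ev, cpoly, map_sum, this]

theorem degree_cpoly {ι : Type*} [Fintype ι] (U : ι → Finset (Fin n)) (r : ℕ)
    (h : ∀ i, (U i).card ≤ r) : (cpoly U).totalDegree ≤ r ^ 2 := by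
  unfold cpoly
  refine MvPolynomial.totalDegree_finsetSum_le fun i _ => ?_
  exact le_trans (degree_Kpoly (U i)) (Nat.pow_le_pow_left (h i) 2)

/-- indicator that `U ⊆ S` -/
noncomputable def sind (U S : Finset (Fin n)) : ℝ := if U ⊆ S then 1 else 0

theorem sum_K_plant {ι : Type*} [Fintype ι] (U : ι → Finset (Fin n)) (S : Finset (Fin n))
    (Z : Input n) : ∑ i, K (U i) (plant S Z) = ∑ i, sind (U i) S + noise U S (plant S Z) := by
  unfold noise
  rw [← Finset.sum_add_distrib]
  refine Finset.sum_congr rfl fun i _ => ?_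
  unfold sind nind
  split_ifs with h
  · rw [K_plant_eq_one h]; ring
  · ring

theorem noise_nonneg {ι : Type*} [Fintype ι] (U : ι → Finset (Fin n)) (S : Finset (Fin n))
    (Y : Input n) : 0 ≤ noise U S Y :=
  Finset.sum_nonneg fun i _ => mul_nonneg (nind_nonneg _ _) (K_nonneg _ _)

theorem sind_mul (U V S : Finset (Fin n)) : sind U S * sind V S = sind (U ∪ V) S := by
  unfold sind
  by_cases hU : U ⊆ S <;> by_cases hV : V ⊆ S
  · rw [if_pos hU, if_pos hV, if_pos (Finset.union_subset hU hV)]; norm_num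
  · rw [if_neg hV, if_neg (fun h => hV (Finset.union_subset_right h))]; norm_num
  · rw [if_neg hU, if_neg (fun h => hU (Finset.union_subset_left h))]; norm_num
  · rw [if_neg hU, if_neg (fun h => hU (Finset.union_subset_left h))]; norm_num

theorem sum_wt_sind (p : ℝ) (U : Finset (Fin n)) :
    ∑ S : Finset (Fin n), wt n p S * sind U S = p ^ U.card := sum_wt_subset p U

theorem sum_wt_sind_sum {ι : Type*} [Fintype ι] (p : ℝ) (c : ι → ℝ) (U : ι → Finset (Fin n)) :
    ∑ S : Finset (Fin n), wt n p S * ∑ i, c i * sind (U i) S = ∑ i, c i * p ^ (U i).card := by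
  simp_rw [Finset.mul_sum]
  rw [Finset.sum_comm]
  refine Finset.sum_congr rfl fun i _ => ?_
  rw [← sum_wt_sind, Finset.mul_sum]
  refine Finset.sum_congr rfl fun S _ => ?_
  ring

theorem sum_wt_sq {ι : Type*} [Fintype ι] (p c : ℝ) (U : ι → Finset (Fin n)) :
    ∑ S : Finset (Fin n), wt n p S * (∑ i, sind (U i) S - c) ^ 2 =
      mom p U - 2 * c * ∑ i, p ^ (U i).card + c ^ 2 := by
  have h1 : ∀ S : Finset (Fin n), wt n p S * (∑ i, sind (U i) S - c) ^ 2 =
      wt n p S * ∑ x : ι × ι, (1:ℝ) * sind (U x.1 ∪ U x.2) S +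
      (-2 * c) * (wt n p S * ∑ i, (1:ℝ) * sind (U i) S) + c ^ 2 * wt n p S := by
    intro S
    have h2 : ∑ x : ι × ι, (1:ℝ) * sind (U x.1 ∪ U x.2) S = (∑ i, sind (U i) S) ^ 2 := by
      rw [sq, Finset.sum_mul_sum, Fintype.sum_prod_type]
      refine Finset.sum_congr rfl fun i _ => Finset.sum_congr rfl fun j _ => ?_
      rw [sind_mul, one_mul]
    rw [h2]
    simp only [one_mul]
    ring
  simp_rw [h1]
  rw [Finset.sum_add_distrib, Finset.sum_add_distrib, ← Finset.mul_sum, ← Finset.mul_sum, sum_wt,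
    sum_wt_sind_sum, sum_wt_sind_sum, Fintype.sum_prod_type]
  unfold mom
  simp only [one_mul]
  ring

/-- second moment facts for the detection statistic -/
theorem detection {t m s : ℕ} {e : Fin t × Fin m → Fin n} (he : Function.Injective e)
    (ht : t = 4 * s + 1) (hm : 0 < m) (k : ℝ) (hp : 0 < k / n) (hp1 : k / n ≤ 1) (δ α : ℝ)
    (hδ : δ = (1 + (1/2) ^ s / (k / n)) ^ (4 * t + 2) - 1)
    (hα : α = (1 + 1 / (m * (k / n))) ^ t) :
    (m * (k / n)) ^ t ≤ meanP k (cpoly (tset e)) ∧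
    varP k (cpoly (tset e)) ≤ ((m * (k / n)) ^ t) ^ 2 * (2 * (α - 1) + 2 * (δ * α)) ∧
    varQ (cpoly (tset e)) ≤ ((m * (k / n)) ^ t) ^ 2 * (δ * α) ∧
    meanQ (cpoly (tset e)) ^ 2 ≤ ((m * (k / n)) ^ t) ^ 2 * (δ * α) := by
  set p := k / n with hpdef
  set μ : ℝ := (m * p) ^ t with hμ
  have hm' : (0:ℝ) < m := by exact_mod_cast hm
  have hμ0 : 0 < μ := by positivity
  have hcard : ∀ g, 4 * s + 1 ≤ (tset e g).card := fun g => by rw [card_tset he, ht]
  have hR : ∀ g h, (tset e g ∪ tset e h).card ≤ 4 * t + 2 := by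
    intro g h
    refine le_trans (Finset.card_union_le _ _) ?_
    rw [card_tset he, card_tset he]; omega
  have hM : mom p (tset e) ≤ μ ^ 2 * α := by
    rw [hα]; exact mom_tset_le he hp hm
  have hδ0 : 0 ≤ δ := by
    have : (1:ℝ) ≤ (1 + (1/2) ^ s / p) ^ (4 * t + 2) := by
      apply one_le_pow₀
      have : 0 ≤ (1/2:ℝ) ^ s / p := by positivity
      linarith
    rw [hδ]; linarith
  have hQ2 : EQ (fun Y => ev (cpoly (tset e)) Y ^ 2) ≤ μ ^ 2 * (δ * α) := by
    simp_rw [ev_cpoly]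
    refine le_trans (EQ_sq_clique_le p hp (tset e) s _ hcard hR) ?_
    rw [← hδ]
    nlinarith
  have hN : EP k (fun S Y => noise (tset e) S Y ^ 2) ≤ δ * (μ ^ 2 * α) := by
    refine le_trans (noise_sq_le k hp hp1 (tset e) s _ hcard hR) ?_
    rw [← hδ]
    exact mul_le_mul_of_nonneg_left hM hδ0
  refine ⟨?_, ?_, ?_, ?_⟩
  · unfold meanP
    have h1 : μ = EP k (fun S (_ : Input n) => ∑ g, (1:ℝ) * sind (tset e g) S) := by
      rw [EP_S, sum_wt_sind_sum]
      simp only [one_mul]
      rw [mom1_tset he]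
    rw [h1]
    refine EP_mono hp.le hp1 fun S Z => ?_
    rw [ev_cpoly, sum_K_plant]
    simp only [one_mul]
    linarith [noise_nonneg (tset e) S (plant S Z)]
  · unfold varP meanP
    refine le_trans (EP_var_le k _ μ) ?_
    have h1 : EP k (fun _ Y => (ev (cpoly (tset e)) Y - μ) ^ 2) ≤
        EP k (fun S Y => 2 * (∑ g, sind (tset e g) S - μ) ^ 2 + 2 * noise (tset e) S Y ^ 2) := by
      refine EP_mono hp.le hp1 fun S Z => ?_
      rw [ev_cpoly, sum_K_plant]
      nlinarith [sq_nonneg (∑ g, sind (tset e g) S - μ - noise (tset e) S (plant S Z))]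
    refine le_trans h1 ?_
    rw [EP_add, EP_const_mul, EP_const_mul, EP_S, sum_wt_sq, mom1_tset he]
    nlinarith
  · unfold varQ meanQ
    refine le_trans (EQ_var_le _ 0) ?_
    simpa using hQ2
  · unfold meanQ
    exact le_trans (EQ_sq_le _) hQ2

end Pool.Agent.N602.PC
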