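import Pool.Agent.N602.PCMoment

open scoped BigOperators
open Filter Asymptotics

namespace Pool.Agent.N602.PC

variable {n : ℕ}

/-- independence of two families with disjoint supports -/
theorem sum_wt_indep {ι κ : Type*} [Fintype ι] [Fintype κ] (p : ℝ) (c : ι → ℝ) (d : κ → ℝ)
    (U : ι → Finset (Fin n)) (V : κ → Finset (Fin n)) (h : ∀ i j, Disjoint (U i) (V j)) :
    ∑ S : Finset (Fin n), wt n p S * ((∑ i, c i * sind (U i) S) * (∑ j, d j * sind (V j) S)) =
      (∑ i, c i * p ^ (U i).card) * (∑ j, d j * p ^ (V j).card) := by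
  have h1 : ∀ S : Finset (Fin n), (∑ i, c i * sind (U i) S) * (∑ j, d j * sind (V j) S) =
      ∑ x : ι × κ, (c x.1 * d x.2) * sind (U x.1 ∪ V x.2) S := by
    intro S
    rw [Finset.sum_mul_sum, Fintype.sum_prod_type]
    refine Finset.sum_congr rfl fun i _ => Finset.sum_congr rfl fun j _ => ?_
    rw [← sind_mul]; ring
  simp_rw [h1]
  rw [sum_wt_sind_sum, Finset.sum_mul_sum, Fintype.sum_prod_type]
  refine Finset.sum_congr rfl fun i _ => Finset.sum_congr rfl fun j _ => ?_
  rw [Finset.card_union_of_disjoint (h i j), pow_add]; ring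

/-- the square of `1 - c ∑ 1[U_i ⊆ S]` as a set polynomial -/
theorem one_sub_sq {ι : Type*} [Fintype ι] (c : ℝ) (U : ι → Finset (Fin n))
    (S : Finset (Fin n)) :
    (1 - c * ∑ i, sind (U i) S) ^ 2 =
      ∑ x : Option ι × Option ι, ((x.1.elim 1 fun _ => -c) * (x.2.elim 1 fun _ => -c)) *
        sind ((x.1.elim ∅ U) ∪ (x.2.elim ∅ U)) S := by
  have h1 : 1 - c * ∑ i, sind (U i) S =
      ∑ a : Option ι, (a.elim 1 fun _ => -c) * sind (a.elim ∅ U) S := by
    rw [Fintype.sum_option]
    simp only [Option.elim]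
    rw [Finset.mul_sum]
    have : sind ∅ S = 1 := by simp [sind]
    rw [this, sub_eq_add_neg, ← Finset.sum_neg_distrib]
    simp
  rw [h1, sq, Finset.sum_mul_sum, Fintype.sum_prod_type]
  refine Finset.sum_congr rfl fun i _ => Finset.sum_congr rfl fun j _ => ?_
  rw [← sind_mul]; ring

theorem sum_one_sub_sq {ι : Type*} [Fintype ι] (p c : ℝ) (U : ι → Finset (Fin n)) :
    ∑ x : Option ι × Option ι, ((x.1.elim 1 fun _ => -c) * (x.2.elim 1 fun _ => -c)) *
        p ^ ((x.1.elim ∅ U) ∪ (x.2.elim ∅ U)).card =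
      1 - 2 * c * ∑ i, p ^ (U i).card + c ^ 2 * mom p U := by
  rw [Fintype.sum_prod_type, Fintype.sum_option]
  simp only [Fintype.sum_option, Option.elim, Finset.empty_union, Finset.union_empty]
  unfold mom
  simp only [Finset.card_empty, pow_zero, Finset.sum_add_distrib, ← Finset.mul_sum]
  ring

/-- the main square: `E x (1-P_A)² (1-P_B)²` -/
theorem sum_wt_main {ι κ : Type*} [Fintype ι] [Fintype κ] (p c d : ℝ)
    (U : ι → Finset (Fin n)) (V : κ → Finset (Fin n)) (v : Fin n)
    (hUV : ∀ i j, Disjoint (U i) (V j)) (hU : ∀ i, v ∉ U i) (hV : ∀ j, v ∉ V j) :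
    ∑ S : Finset (Fin n), wt n p S * (sind {v} S * ((1 - c * ∑ i, sind (U i) S) ^ 2 *
      (1 - d * ∑ j, sind (V j) S) ^ 2)) =
      p * ((1 - 2 * c * ∑ i, p ^ (U i).card + c ^ 2 * mom p U) *
       (1 - 2 * d * ∑ j, p ^ (V j).card + d ^ 2 * mom p V)) := by
  have h1 : ∀ S : Finset (Fin n), sind {v} S * ((1 - c * ∑ i, sind (U i) S) ^ 2 *
      (1 - d * ∑ j, sind (V j) S) ^ 2) =
      (∑ x : Option ι × Option ι, ((x.1.elim 1 fun _ => -c) * (x.2.elim 1 fun _ => -c)) *
        sind ((x.1.elim ∅ U) ∪ (x.2.elim ∅ U)) S) *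
      (∑ x : Option κ × Option κ, ((x.1.elim 1 fun _ => -d) * (x.2.elim 1 fun _ => -d)) *
        sind ({v} ∪ ((x.1.elim ∅ V) ∪ (x.2.elim ∅ V))) S) := by
    intro S
    rw [← one_sub_sq]
    have : ∑ x : Option κ × Option κ, ((x.1.elim 1 fun _ => -d) * (x.2.elim 1 fun _ => -d)) *
        sind ({v} ∪ ((x.1.elim ∅ V) ∪ (x.2.elim ∅ V))) S =
        sind {v} S * (1 - d * ∑ j, sind (V j) S) ^ 2 := by
      rw [one_sub_sq, Finset.mul_sum]
      refine Finset.sum_congr rfl fun x _ => ?_
      rw [← sind_mul {v}]; ring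
    rw [this]; ring
  simp_rw [h1]
  rw [sum_wt_indep]
  · rw [sum_one_sub_sq]
    have h2 : ∑ x : Option κ × Option κ, ((x.1.elim 1 fun _ => -d) * (x.2.elim 1 fun _ => -d)) *
        p ^ ({v} ∪ ((x.1.elim ∅ V) ∪ (x.2.elim ∅ V))).card =
        p * (1 - 2 * d * ∑ j, p ^ (V j).card + d ^ 2 * mom p V) := by
      rw [← sum_one_sub_sq, Finset.mul_sum]
      refine Finset.sum_congr rfl fun x _ => ?_
      rw [Finset.card_union_of_disjoint, Finset.card_singleton, pow_add]
      · ring
      · rw [Finset.disjoint_singleton_left]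
        rcases x with ⟨_ | a, _ | b⟩ <;> simp [hV]
    rw [h2]; ring
  · rintro ⟨a, a'⟩ ⟨b, b'⟩
    rcases a with _ | a <;> rcases a' with _ | a' <;> rcases b with _ | b <;>
      rcases b' with _ | b' <;>
      simp [Finset.disjoint_union_left, Finset.disjoint_union_right, hUV, hU, hV]

/-- inserting a vertex in every set of a family multiplies the moment by `p` -/
theorem mom_insert {ι : Type*} [Fintype ι] (p : ℝ) (U : ι → Finset (Fin n)) (v : Fin n)
    (hU : ∀ i, v ∉ U i) : mom p (fun i => insert v (U i)) = p * mom p U := by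
  unfold mom
  rw [Finset.mul_sum]
  refine Finset.sum_congr rfl fun i _ => ?_
  rw [Finset.mul_sum]
  refine Finset.sum_congr rfl fun j _ => ?_
  have : insert v (U i) ∪ insert v (U j) = insert v (U i ∪ U j) := by
    ext w; simp
  rw [this, Finset.card_insert_of_notMem (by simp [hU]), pow_succ]
  ring

/-- the moment of a product family with disjoint supports -/
theorem mom_prod {ι κ : Type*} [Fintype ι] [Fintype κ] (p : ℝ) (U : ι → Finset (Fin n))
    (V : κ → Finset (Fin n)) (h : ∀ i j, Disjoint (U i) (V j)) :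
    mom p (fun x : ι × κ => U x.1 ∪ V x.2) = mom p U * mom p V := by
  unfold mom
  have h1 : ∀ i i' j j', p ^ ((U i ∪ V j) ∪ (U i' ∪ V j')).card =
      p ^ (U i ∪ U i').card * p ^ (V j ∪ V j').card := by
    intro i i' j j'
    rw [← pow_add, ← Finset.card_union_of_disjoint]
    · congr 2
      ext w; simp; tauto
    · simp [Finset.disjoint_union_left, Finset.disjoint_union_right, h]
  rw [Finset.sum_mul_sum, Fintype.sum_prod_type]
  refine Finset.sum_congr rfl fun i _ => Finset.sum_congr rfl fun j _ => ?_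
  rw [Finset.sum_mul_sum, Fintype.sum_prod_type]
  exact Finset.sum_congr rfl fun i' _ => Finset.sum_congr rfl fun j' _ => h1 i i' j j'

/-! ### the estimator -/

/-- the estimator -/
noncomputable def est {ι : Type*} [Fintype ι] (c : ℝ) (U V : ι → Finset (Fin n)) (v : Fin n) :
    MvPolynomial (Edge n) ℝ :=
  MvPolynomial.C c * cpoly (fun i => insert v (U i)) +
    MvPolynomial.C c * cpoly (fun i => insert v (V i)) +
    MvPolynomial.C (-(c ^ 2)) * cpoly (fun x : ι × ι => insert v (U x.1 ∪ V x.2))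

theorem ev_est {ι : Type*} [Fintype ι] (c : ℝ) (U V : ι → Finset (Fin n)) (v : Fin n)
    (Y : Input n) : ev (est c U V v) Y =
      c * (∑ i, K (insert v (U i)) Y) + c * (∑ i, K (insert v (V i)) Y) -
      c ^ 2 * ∑ x : ι × ι, K (insert v (U x.1 ∪ V x.2)) Y := by
  have h1 := ev_cpoly (fun i => insert v (U i)) Y
  have h2 := ev_cpoly (fun i => insert v (V i)) Y
  have h3 := ev_cpoly (fun x : ι × ι => insert v (U x.1 ∪ V x.2)) Y
  rw [← h1, ← h2, ← h3]
  simp only [ev, est, map_add, map_mul, MvPolynomial.eval_C]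
  ring

theorem degree_est {ι : Type*} [Fintype ι] (c : ℝ) (U V : ι → Finset (Fin n)) (v : Fin n)
    (t : ℕ) (hU : ∀ i, (U i).card ≤ t) (hV : ∀ i, (V i).card ≤ t) :
    (est c U V v).totalDegree ≤ (2 * t + 1) ^ 2 := by
  have hC : ∀ (a : ℝ) {κ : Type _} [Fintype κ] (W : κ → Finset (Fin n)),
      (∀ i, (W i).card ≤ 2 * t + 1) →
      (MvPolynomial.C a * cpoly W : MvPolynomial (Edge n) ℝ).totalDegree ≤ (2 * t + 1) ^ 2 := by
    intro a κ _ W hW
    refine le_trans (MvPolynomial.totalDegree_mul _ _) ?_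
    rw [MvPolynomial.totalDegree_C, zero_add]
    exact degree_cpoly W _ hW
  unfold est
  refine le_trans (MvPolynomial.totalDegree_add _ _) (max_le ?_ ?_)
  · refine le_trans (MvPolynomial.totalDegree_add _ _) (max_le ?_ ?_)
    · refine hC _ _ fun i => ?_
      refine le_trans (Finset.card_insert_le _ _) ?_
      have := hU i
      omega
    · refine hC _ _ fun i => ?_
      refine le_trans (Finset.card_insert_le _ _) ?_
      have := hV i
      omega
  · refine hC _ _ fun i => ?_
    refine le_trans (Finset.card_insert_le _ _) ?_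
    have h1 := hU i.1
    have h2 := hV i.2
    have h3 := Finset.card_union_le (U i.1) (V i.2)
    omega

theorem sind_insert (v : Fin n) (U S : Finset (Fin n)) :
    sind (insert v U) S = sind {v} S * sind U S := by
  rw [sind_mul]; rfl

theorem sind_sq (U S : Finset (Fin n)) : sind U S ^ 2 = sind U S := by
  unfold sind; split_ifs <;> norm_num

theorem xind_eq {v : Fin n} (hv : (v : ℕ) = 0) (S : Finset (Fin n)) : xind S = sind {v} S := by
  unfold xind sind
  congr 1
  rw [Finset.singleton_subset_iff]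
  apply propext
  constructor
  · rintro ⟨w, hw, hw0⟩
    have : w = v := Fin.ext (by rw [hw0, hv])
    rwa [← this]
  · intro h
    exact ⟨v, h, hv⟩

/-- the mean square error of the estimator -/
theorem recovery {t m s : ℕ} {e1 e2 : Fin t × Fin m → Fin n} {v : Fin n}
    (he1 : Function.Injective e1) (he2 : Function.Injective e2)
    (h12 : ∀ a b, e1 a ≠ e2 b) (h1v : ∀ a, e1 a ≠ v) (h2v : ∀ a, e2 a ≠ v) (hv : (v : ℕ) = 0)
    (ht : t = 4 * s + 1) (hm : 0 < m) (k : ℝ) (hp : 0 < k / n) (hp1 : k / n ≤ 1) (δ α : ℝ)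
    (hδ : δ = (1 + (1/2) ^ s / (k / n)) ^ (4 * t + 2) - 1)
    (hα : α = (1 + 1 / (m * (k / n))) ^ t) :
    EP k (fun S Y => (ev (est ((m * (k / n)) ^ t)⁻¹ (tset e1) (tset e2) v) Y - xind S) ^ 2) ≤
      4 * ((k / n) * ((α - 1) ^ 2 + 2 * (δ * α) + δ * α ^ 2)) := by
  set p := k / n with hpdef
  set μ : ℝ := (m * p) ^ t with hμ
  have hm' : (0:ℝ) < m := by exact_mod_cast hm
  have hμ0 : 0 < μ := by positivity
  set c : ℝ := μ⁻¹ with hc
  have hc0 : 0 < c := by positivity
  have hcμ : c * μ = 1 := by rw [hc]; field_simp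
  have hUV : ∀ g h, Disjoint (tset e1 g) (tset e2 h) := by
    intro g h
    rw [Finset.disjoint_left]
    intro w hw hw'
    simp only [tset, Finset.mem_image, Finset.mem_univ, true_and] at hw hw'
    obtain ⟨i, rfl⟩ := hw
    obtain ⟨j, hj⟩ := hw'
    exact h12 _ _ hj.symm
  have hU : ∀ g, v ∉ tset e1 g := by
    intro g hg
    simp only [tset, Finset.mem_image, Finset.mem_univ, true_and] at hg
    obtain ⟨i, hi⟩ := hg
    exact h1v _ hi
  have hV : ∀ g, v ∉ tset e2 g := by
    intro g hg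
    simp only [tset, Finset.mem_image, Finset.mem_univ, true_and] at hg
    obtain ⟨i, hi⟩ := hg
    exact h2v _ hi
  have hM1 : mom p (tset e1) ≤ μ ^ 2 * α := by rw [hα]; exact mom_tset_le he1 hp hm
  have hM2 : mom p (tset e2) ≤ μ ^ 2 * α := by rw [hα]; exact mom_tset_le he2 hp hm
  have hmom0 : ∀ {ι : Type} [Fintype ι] (W : ι → Finset (Fin n)), 0 ≤ mom p W := by
    intro ι _ W
    exact Finset.sum_nonneg fun i _ => Finset.sum_nonneg fun j _ => by positivity
  have hδ0 : 0 ≤ δ := by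
    have : (1:ℝ) ≤ (1 + (1/2) ^ s / p) ^ (4 * t + 2) := by
      apply one_le_pow₀
      have : 0 ≤ (1/2:ℝ) ^ s / p := by positivity
      linarith
    rw [hδ]; linarith
  have hα1 : 1 ≤ α := by
    rw [hα]
    apply one_le_pow₀
    have : 0 ≤ 1 / (m * p) := by positivity
    linarith
  -- the three noise terms
  have hcardU : ∀ g, 4 * s + 1 ≤ (insert v (tset e1 g)).card := fun g => by
    rw [Finset.card_insert_of_notMem (hU g), card_tset he1]; omega
  have hcardV : ∀ g, 4 * s + 1 ≤ (insert v (tset e2 g)).card := fun g => by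
    rw [Finset.card_insert_of_notMem (hV g), card_tset he2]; omega
  have hcardW : ∀ x : (Fin t → Fin m) × (Fin t → Fin m),
      4 * s + 1 ≤ (insert v (tset e1 x.1 ∪ tset e2 x.2)).card := fun x => by
    have h1 : (tset e1 x.1).card ≤ (insert v (tset e1 x.1 ∪ tset e2 x.2)).card :=
      Finset.card_le_card (Finset.subset_union_left.trans (Finset.subset_insert _ _))
    rw [card_tset he1] at h1; omega
  have hcU : ∀ g, (insert v (tset e1 g)).card ≤ 2 * t + 1 := fun g => by
    rw [Finset.card_insert_of_notMem (hU g), card_tset he1]; omega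
  have hcV : ∀ g, (insert v (tset e2 g)).card ≤ 2 * t + 1 := fun g => by
    rw [Finset.card_insert_of_notMem (hV g), card_tset he2]; omega
  have hcW : ∀ x : (Fin t → Fin m) × (Fin t → Fin m),
      (insert v (tset e1 x.1 ∪ tset e2 x.2)).card ≤ 2 * t + 1 := fun x => by
    refine le_trans (Finset.card_insert_le _ _) ?_
    have h3 := Finset.card_union_le (tset e1 x.1) (tset e2 x.2)
    rw [card_tset he1, card_tset he2] at h3
    omega
  have hRgen : ∀ {ι : Type} (W : ι → Finset (Fin n)), (∀ i, (W i).card ≤ 2 * t + 1) →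
      ∀ i j, (W i ∪ W j).card ≤ 4 * t + 2 := by
    intro ι W hW i j
    refine le_trans (Finset.card_union_le _ _) ?_
    have h1 := hW i
    have h2 := hW j
    omega
  have hNU := noise_sq_le k hp hp1 (fun g => insert v (tset e1 g)) s (4 * t + 2) hcardU
    (hRgen _ hcU)
  have hNV := noise_sq_le k hp hp1 (fun g => insert v (tset e2 g)) s (4 * t + 2) hcardV
    (hRgen _ hcV)
  have hNW := noise_sq_le k hp hp1
    (fun x : (Fin t → Fin m) × (Fin t → Fin m) => insert v (tset e1 x.1 ∪ tset e2 x.2)) s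
    (4 * t + 2) hcardW (hRgen _ hcW)
  rw [← hpdef, ← hδ, mom_insert p (tset e1) v hU] at hNU
  rw [← hpdef, ← hδ, mom_insert p (tset e2) v hV] at hNV
  rw [← hpdef, ← hδ, mom_insert p (fun x : (Fin t → Fin m) × (Fin t → Fin m) =>
    tset e1 x.1 ∪ tset e2 x.2) v (fun x => by simp [hU, hV]), mom_prod p _ _ hUV] at hNW
  have hNU' : c ^ 2 * EP k (fun S Y => noise (fun g => insert v (tset e1 g)) S Y ^ 2) ≤
      p * (δ * α) := by
    calc _ ≤ c ^ 2 * (δ * (p * (μ ^ 2 * α))) := by gcongr; exact le_trans hNU (by gcongr)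
      _ = (c * μ) ^ 2 * (p * (δ * α)) := by ring
      _ = _ := by rw [hcμ]; ring
  have hNV' : c ^ 2 * EP k (fun S Y => noise (fun g => insert v (tset e2 g)) S Y ^ 2) ≤
      p * (δ * α) := by
    calc _ ≤ c ^ 2 * (δ * (p * (μ ^ 2 * α))) := by gcongr; exact le_trans hNV (by gcongr)
      _ = (c * μ) ^ 2 * (p * (δ * α)) := by ring
      _ = _ := by rw [hcμ]; ring
  have hNW' : (c ^ 2) ^ 2 * EP k (fun S Y => noise (fun x : (Fin t → Fin m) × (Fin t → Fin m) =>
      insert v (tset e1 x.1 ∪ tset e2 x.2)) S Y ^ 2) ≤ p * (δ * α ^ 2) := by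
    calc _ ≤ (c ^ 2) ^ 2 * (δ * (p * ((μ ^ 2 * α) * (μ ^ 2 * α)))) := by
          gcongr
          refine le_trans hNW ?_
          have h0 := hmom0 (tset e1)
          have h0' := hmom0 (tset e2)
          gcongr
      _ = (c * μ) ^ 4 * (p * (δ * α ^ 2)) := by ring
      _ = _ := by rw [hcμ]; ring
  -- the main term
  have hmain := sum_wt_main p c c (tset e1) (tset e2) v hUV hU hV
  rw [mom1_tset he1, mom1_tset he2, ← hμ] at hmain
  have hmain' : ∑ S : Finset (Fin n), wt n p S * (sind {v} S *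
      ((1 - c * ∑ i, sind (tset e1 i) S) ^ 2 * (1 - c * ∑ j, sind (tset e2 j) S) ^ 2)) ≤
      p * (α - 1) ^ 2 := by
    rw [hmain]
    have a1 : 1 - 2 * c * μ + c ^ 2 * mom p (tset e1) ≤ α - 1 := by
      have : c ^ 2 * mom p (tset e1) ≤ c ^ 2 * (μ ^ 2 * α) := by gcongr
      have h2 : c ^ 2 * (μ ^ 2 * α) = α := by
        calc _ = (c * μ) ^ 2 * α := by ring
          _ = _ := by rw [hcμ]; ring
      have h3 : 2 * c * μ = 2 := by rw [mul_assoc, hcμ]; ring
      linarith
    have a2 : 1 - 2 * c * μ + c ^ 2 * mom p (tset e2) ≤ α - 1 := by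
      have : c ^ 2 * mom p (tset e2) ≤ c ^ 2 * (μ ^ 2 * α) := by gcongr
      have h2 : c ^ 2 * (μ ^ 2 * α) = α := by
        calc _ = (c * μ) ^ 2 * α := by ring
          _ = _ := by rw [hcμ]; ring
      have h3 : 2 * c * μ = 2 := by rw [mul_assoc, hcμ]; ring
      linarith
    have a3 : 0 ≤ 1 - 2 * c * μ + c ^ 2 * mom p (tset e2) := by
      have h1 := sum_wt_sq p μ (tset e2)
      rw [mom1_tset he2, ← hμ] at h1
      have h2 : 0 ≤ mom p (tset e2) - 2 * μ * μ + μ ^ 2 := by
        rw [← h1]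
        exact Finset.sum_nonneg fun S _ => mul_nonneg (wt_nonneg hp.le hp1 S) (sq_nonneg _)
      have h3 : 1 - 2 * c * μ + c ^ 2 * mom p (tset e2) =
          c ^ 2 * (mom p (tset e2) - 2 * μ * μ + μ ^ 2) := by
        have h4 : c ^ 2 * (μ * μ) = 1 := by
          calc _ = (c * μ) ^ 2 := by ring
            _ = _ := by rw [hcμ]; ring
        have h3 : c * μ = c ^ 2 * (μ * μ) := by rw [h4, hcμ]
        nlinarith
      rw [h3]; positivity
    have hα0 : 0 ≤ α - 1 := by linarith
    calc p * ((1 - 2 * c * μ + c ^ 2 * mom p (tset e1)) *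
          (1 - 2 * c * μ + c ^ 2 * mom p (tset e2)))
        ≤ p * ((α - 1) * (α - 1)) := by gcongr
      _ = _ := by ring
  -- assemble
  have hstep : EP k (fun S Y => (ev (est c (tset e1) (tset e2) v) Y - xind S) ^ 2) ≤
      EP k (fun S Y => 4 * (sind {v} S * ((1 - c * ∑ i, sind (tset e1 i) S) ^ 2 *
        (1 - c * ∑ j, sind (tset e2 j) S) ^ 2)) +
        (4 * c ^ 2 * noise (fun g => insert v (tset e1 g)) S Y ^ 2 +
        (4 * c ^ 2 * noise (fun g => insert v (tset e2 g)) S Y ^ 2 +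
        4 * (c ^ 2) ^ 2 * noise (fun x : (Fin t → Fin m) × (Fin t → Fin m) =>
          insert v (tset e1 x.1 ∪ tset e2 x.2)) S Y ^ 2))) := by
    refine EP_mono hp.le hp1 fun S Z => ?_
    rw [ev_est, sum_K_plant (fun g => insert v (tset e1 g)),
      sum_K_plant (fun g => insert v (tset e2 g)),
      sum_K_plant (fun x : (Fin t → Fin m) × (Fin t → Fin m) =>
        insert v (tset e1 x.1 ∪ tset e2 x.2)), xind_eq hv]
    have b1 : ∑ i, sind (insert v (tset e1 i)) S = sind {v} S * ∑ i, sind (tset e1 i) S := by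
      rw [Finset.mul_sum]; exact Finset.sum_congr rfl fun i _ => sind_insert _ _ _
    have b2 : ∑ i, sind (insert v (tset e2 i)) S = sind {v} S * ∑ i, sind (tset e2 i) S := by
      rw [Finset.mul_sum]; exact Finset.sum_congr rfl fun i _ => sind_insert _ _ _
    have b3 : ∑ x : (Fin t → Fin m) × (Fin t → Fin m), sind (insert v (tset e1 x.1 ∪ tset e2 x.2)) S
        = sind {v} S * ((∑ i, sind (tset e1 i) S) * ∑ j, sind (tset e2 j) S) := by
      rw [Finset.sum_mul_sum, Fintype.sum_prod_type, Finset.mul_sum]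
      refine Finset.sum_congr rfl fun i _ => ?_
      rw [Finset.mul_sum]
      refine Finset.sum_congr rfl fun j _ => ?_
      rw [sind_insert, ← sind_mul (tset e1 i) (tset e2 j)]
    rw [b1, b2, b3]
    generalize noise (fun g => insert v (tset e1 g)) S (plant S Z) = N1
    generalize noise (fun g => insert v (tset e2 g)) S (plant S Z) = N2
    generalize noise (fun x : (Fin t → Fin m) × (Fin t → Fin m) =>
          insert v (tset e1 x.1 ∪ tset e2 x.2)) S (plant S Z) = N3
    generalize (∑ i, sind (tset e1 i) S) = A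
    generalize (∑ i, sind (tset e2 i) S) = B
    have hx := sind_sq {v} S
    generalize sind {v} S = x at hx
    set a := x * ((1 - c * A) * (1 - c * B)) with ha
    have h1 : x * ((1 - c * A) ^ 2 * (1 - c * B) ^ 2) = a ^ 2 := by
      rw [ha, mul_pow, hx]; ring
    rw [h1]
    have h2 : c * (x * A + N1) + c * (x * B + N2) - c ^ 2 * (x * (A * B) + N3) - x =
        -a + c * N1 + c * N2 - c ^ 2 * N3 := by rw [ha]; ring
    rw [h2]
    nlinarith [sq_nonneg (a + c * N1), sq_nonneg (a + c * N2), sq_nonneg (a - c ^ 2 * N3),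
      sq_nonneg (c * N1 - c * N2), sq_nonneg (c * N1 + c ^ 2 * N3),
      sq_nonneg (c * N2 + c ^ 2 * N3)]
  refine le_trans hstep ?_
  rw [EP_add, EP_add, EP_add, EP_const_mul, EP_const_mul, EP_const_mul, EP_const_mul, EP_S]
  nlinarith

end Pool.Agent.N602.PC
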